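import Mathlib

/-!
# Strong odd colourings of hypergraphs of maximum degree four

The hypergraph on the pairs `i < j` of `Fin k` whose hyperedges are, for every `i`, the set `low i`
of the pairs with smaller element `i`, the set `upp i` of the pairs with larger element `i`, and
their union: every pair lies in at most four hyperedges, but every strong odd colouring is a proper
colouring of the shift graph, so it needs at least `log₂ k` colours.
-/

set_option autoImplicit false

open Finset

namespace Pool.Agent.Results.MP_368cee_co.DegreeFour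

/-- `φ` is a strong odd colouring of the hypergraph with the hyperedges `E`: for every hyperedge `e`
and every colour `i` the number of the vertices of `e` of colour `i` is `0` or odd. -/
def IsStrongOdd {V : Type} [DecidableEq V] (E : Finset (Finset V)) {t : ℕ} (φ : V → Fin t) : Prop :=
  ∀ e ∈ E, ∀ i : Fin t, (e.filter fun v => φ v = i).card = 0 ∨ Odd (e.filter fun v => φ v = i).card

/-- The degree of a vertex: the number of hyperedges which contain it. -/
def degree {V : Type} [DecidableEq V] (E : Finset (Finset V)) (v : V) : ℕ :=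
  (E.filter fun e => v ∈ e).card

/-- The strong odd chromatic number. -/
noncomputable def chiSO {V : Type} [DecidableEq V] (E : Finset (Finset V)) : ℕ :=
  sInf {t : ℕ | ∃ φ : V → Fin t, IsStrongOdd E φ}

/-- The vertices: the pairs `i < j`. -/
abbrev Pair (k : ℕ) : Type := {p : Fin k × Fin k // p.1 < p.2}

/-- The pairs with smaller element `i`. -/
def low (k : ℕ) (i : Fin k) : Finset (Pair k) := univ.filter fun p => p.1.1 = i

/-- The pairs with larger element `i`. -/
def upp (k : ℕ) (i : Fin k) : Finset (Pair k) := univ.filter fun p => p.1.2 = i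

/-- The hyperedges. -/
def edges (k : ℕ) : Finset (Finset (Pair k)) :=
  ((univ.image (low k)) ∪ (univ.image (upp k)) ∪ (univ.image fun i => low k i ∪ upp k i)).erase ∅

theorem degree_le (k : ℕ) (v : Pair k) : degree (edges k) v ≤ 4 := by
  have hsub : (edges k).filter (fun e => v ∈ e) ⊆
      {low k v.1.1, upp k v.1.2, low k v.1.1 ∪ upp k v.1.1, low k v.1.2 ∪ upp k v.1.2} := by
    intro e he
    simp only [edges, mem_filter, mem_erase, mem_union, mem_image, mem_univ, true_and] at he
    obtain ⟨⟨-, h⟩, hv⟩ := he
    simp only [mem_insert, mem_singleton]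
    rcases h with (⟨i, rfl⟩ | ⟨i, rfl⟩) | ⟨i, rfl⟩
    · simp only [low, mem_filter, mem_univ, true_and] at hv
      subst hv
      exact Or.inl rfl
    · simp only [upp, mem_filter, mem_univ, true_and] at hv
      subst hv
      exact Or.inr (Or.inl rfl)
    · simp only [low, upp, mem_union, mem_filter, mem_univ, true_and] at hv
      rcases hv with rfl | rfl
      · exact Or.inr (Or.inr (Or.inl rfl))
      · exact Or.inr (Or.inr (Or.inr rfl))
  exact (card_le_card hsub).trans card_le_four

/-- A colour of a pair with larger element `i` is not the colour of a pair with smaller element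
`i`. -/
theorem shift {k t : ℕ} {φ : Pair k → Fin t} (h : IsStrongOdd (edges k) φ) (p q : Pair k)
    (hpq : p.1.2 = q.1.1) : φ p ≠ φ q := by
  intro hc
  set i := q.1.1 with hi
  have hp : p ∈ (upp k i).filter fun v => φ v = φ q := by
    simp [upp, hpq, hc]
  have hq : q ∈ (low k i).filter fun v => φ v = φ q := by
    simp [low, hi]
  have hu : upp k i ∈ edges k := by
    simp only [edges, mem_erase, mem_union, mem_image, mem_univ, true_and]
    refine ⟨?_, Or.inl (Or.inr ⟨i, rfl⟩)⟩
    intro h0
    rw [h0] at hp
    simp at hp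
  have hl : low k i ∈ edges k := by
    simp only [edges, mem_erase, mem_union, mem_image, mem_univ, true_and]
    refine ⟨?_, Or.inl (Or.inl ⟨i, rfl⟩)⟩
    intro h0
    rw [h0] at hq
    simp at hq
  have hb : low k i ∪ upp k i ∈ edges k := by
    simp only [edges, mem_erase, mem_union, mem_image, mem_univ, true_and]
    refine ⟨?_, Or.inr ⟨i, rfl⟩⟩
    intro h0
    rw [union_eq_empty] at h0
    rw [h0.1] at hq
    simp at hq
  have h1 := h _ hu (φ q)
  have h2 := h _ hl (φ q)
  have h3 := h _ hb (φ q)
  have hd : Disjoint ((low k i).filter fun v => φ v = φ q) ((upp k i).filter fun v => φ v = φ q) := by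
    rw [disjoint_left]
    intro v hv hv'
    simp only [low, upp, mem_filter, mem_univ, true_and] at hv hv'
    have := v.2
    rw [hv.1, hv'.1] at this
    exact lt_irrefl _ this
  rw [filter_union, card_union_of_disjoint hd] at h3
  have hp' := card_pos.2 ⟨p, hp⟩
  have hq' := card_pos.2 ⟨q, hq⟩
  rcases h1 with h1 | h1
  · omega
  rcases h2 with h2 | h2
  · omega
  rcases h3 with h3 | h3
  · omega
  · exact absurd (h2.add_odd h1) (Nat.not_even_iff_odd.2 h3)

/-- A strong odd colouring of the hypergraph on the pairs of `Fin k` with `t` colours gives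
`k ≤ 2 ^ t`. -/
theorem le_two_pow {k t : ℕ} {φ : Pair k → Fin t} (h : IsStrongOdd (edges k) φ) : k ≤ 2 ^ t := by
  classical
  let S : Fin k → Finset (Fin t) := fun i => (low k i).image φ
  have hS : Function.Injective S := by
    intro i j hij
    by_contra hne
    wlog hlt : i < j generalizing i j with H
    · exact H hij.symm (Ne.symm hne) (lt_of_le_of_ne (not_lt.1 hlt) (Ne.symm hne))
    let p : Pair k := ⟨(i, j), hlt⟩
    have hp : φ p ∈ S i := mem_image_of_mem _ (by simp [low, p])
    rw [hij] at hp
    obtain ⟨q, hq, hpq⟩ := mem_image.1 hp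
    simp only [low, mem_filter, mem_univ, true_and] at hq
    exact shift h p q hq.symm hpq.symm
  have := Fintype.card_le_of_injective S hS
  simpa using this

/-- Giving distinct colours to all vertices is a strong odd colouring. -/
theorem exists_colouring {V : Type} [Fintype V] [DecidableEq V] (E : Finset (Finset V)) :
    ∃ φ : V → Fin (Fintype.card V), IsStrongOdd E φ := by
  refine ⟨Fintype.equivFin V, fun e _ i => ?_⟩
  have h1 : (e.filter fun v => Fintype.equivFin V v = i).card ≤ 1 := by
    refine card_le_one.2 fun a ha b hb => ?_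
    rw [mem_filter] at ha hb
    exact (Fintype.equivFin V).injective (ha.2.trans hb.2.symm)
  rcases Nat.lt_or_ge 0 (e.filter fun v => Fintype.equivFin V v = i).card with h | h
  · right
    have : (e.filter fun v => Fintype.equivFin V v = i).card = 1 := by omega
    rw [this]
    exact odd_one
  · left
    omega

/-- For every number `k` the hypergraph `edges k` on the pairs of `Fin k` has maximum degree at most
four and strong odd chromatic number at least `log₂ k`; so the strong odd chromatic number of
hypergraphs of maximum degree at most four is unbounded, and for no `Δ ≥ 4` there is a constant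
`c(Δ)` as in the question. -/
theorem result :
    (∀ k : ℕ, (∀ v, degree (edges k) v ≤ 4) ∧ k ≤ 2 ^ chiSO (edges k)) ∧
    (∀ Δ : ℕ, 4 ≤ Δ → ∀ c : ℕ, ∃ (V : Type) (_ : Fintype V) (_ : DecidableEq V)
      (E : Finset (Finset V)), (∀ e ∈ E, e.Nonempty) ∧ (∀ v, degree E v ≤ Δ) ∧ c < chiSO E) ∧
    ¬ ∀ Δ : ℕ, 1 ≤ Δ → ∃ c : ℕ, ∀ (V : Type) (_ : Fintype V) (_ : DecidableEq V)
      (E : Finset (Finset V)), (∀ v, degree E v ≤ Δ) → chiSO E ≤ c := by
  have h1 : ∀ k : ℕ, (∀ v, degree (edges k) v ≤ 4) ∧ k ≤ 2 ^ chiSO (edges k) := by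
    intro k
    refine ⟨degree_le k, ?_⟩
    have hne : {t : ℕ | ∃ φ : Pair k → Fin t, IsStrongOdd (edges k) φ}.Nonempty :=
      ⟨_, exists_colouring (edges k)⟩
    obtain ⟨φ, hφ⟩ := Nat.sInf_mem hne
    exact le_two_pow hφ
  have h2 : ∀ Δ : ℕ, 4 ≤ Δ → ∀ c : ℕ, ∃ (V : Type) (_ : Fintype V) (_ : DecidableEq V)
      (E : Finset (Finset V)), (∀ e ∈ E, e.Nonempty) ∧ (∀ v, degree E v ≤ Δ) ∧ c < chiSO E := by
    intro Δ hΔ c
    refine ⟨Pair (2 ^ c + 1), inferInstance, inferInstance, edges (2 ^ c + 1), ?_, ?_, ?_⟩
    · intro e he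
      rw [nonempty_iff_ne_empty]
      exact (mem_erase.1 he).1
    · exact fun v => ((h1 _).1 v).trans hΔ
    · by_contra hlt
      have h3 := (h1 (2 ^ c + 1)).2
      have h4 : 2 ^ chiSO (edges (2 ^ c + 1)) ≤ 2 ^ c :=
        Nat.pow_le_pow_right (by norm_num) (not_lt.1 hlt)
      omega
  refine ⟨h1, h2, ?_⟩
  intro H
  obtain ⟨c, hc⟩ := H 4 (by norm_num)
  obtain ⟨V, iF, iD, E, -, hd, hlt⟩ := h2 4 le_rfl c
  exact absurd (hc V iF iD E hd) (not_le.2 hlt)

end Pool.Agent.Results.MP_368cee_co.DegreeFour
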